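import Mathlib

/-!
Project KAC (MP_6d5dd1_al): basic definitions.
-/

namespace Pool.Agent.H27.KAC

open scoped BigOperators
open Polynomial

/-- A finite quiver is given by its source and target maps; loops and multiple arrows allowed. -/
structure Quiv (I E : Type) where
  src : E → I
  tgt : E → I

section Reps

variable {I E : Type}

/-- Representations of dimension vector `α` over `F`: one matrix for each arrow. -/
abbrev Rp (Q : Quiv I E) (F : Type) (α : I → ℕ) : Type :=
  (e : E) → Matrix (Fin (α (Q.tgt e))) (Fin (α (Q.src e))) F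

/-- `f` is a morphism from `x` to `y`. -/
def IsMor {Q : Quiv I E} {F : Type} [Field F] {α β : I → ℕ} (x : Rp Q F α) (y : Rp Q F β)
    (f : (i : I) → Matrix (Fin (β i)) (Fin (α i)) F) : Prop :=
  ∀ e : E, f (Q.tgt e) * x e = y e * f (Q.src e)

/-- Isomorphism of two representations with the same dimension vector. -/
def Isom {Q : Quiv I E} {F : Type} [Field F] {α : I → ℕ} (x y : Rp Q F α) : Prop :=
  ∃ g : (i : I) → (Matrix (Fin (α i)) (Fin (α i)) F)ˣ,
    IsMor x y (fun i => (g i : Matrix (Fin (α i)) (Fin (α i)) F))

/-- Indecomposable: the dimension vector is not zero and the only idempotent endomorphisms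
are zero and the identity. -/
def Indec {Q : Quiv I E} {F : Type} [Field F] {α : I → ℕ} (x : Rp Q F α) : Prop :=
  α ≠ 0 ∧ ∀ p : (i : I) → Matrix (Fin (α i)) (Fin (α i)) F, IsMor x x p →
    (∀ i, p i * p i = p i) → (∀ i, p i = 0) ∨ (∀ i, p i = 1)

/-- Extension of scalars. -/
def extScalars {Q : Quiv I E} {F : Type} [Field F] (L : Type) [Field L] [Algebra F L]
    {α : I → ℕ} (x : Rp Q F α) : Rp Q L α :=
  fun e => (x e).map (algebraMap F L)

/-- Absolutely indecomposable: indecomposable over the algebraic closure. -/
def AbsIndec {Q : Quiv I E} {F : Type} [Field F] {α : I → ℕ} (x : Rp Q F α) : Prop :=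
  Indec (extScalars (AlgebraicClosure F) x)

/-- The isomorphism classes of absolutely indecomposable representations of dimension
vector `α`, as sets of representations. -/
def absIndecClasses (Q : Quiv I E) (F : Type) [Field F] (α : I → ℕ) : Set (Set (Rp Q F α)) :=
  {c | ∃ x : Rp Q F α, AbsIndec x ∧ c = {y | Isom x y}}

/-- Number of isomorphism classes of absolutely indecomposable representations. -/
noncomputable def kacCount (Q : Quiv I E) (F : Type) [Field F] (α : I → ℕ) : ℕ :=
  (absIndecClasses Q F α).ncard

/-- `p` is the Kac polynomial of `Q` in dimension `α`. -/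
def IsKacPoly (Q : Quiv I E) (α : I → ℕ) (p : ℚ[X]) : Prop :=
  ∀ (F : Type) [Field F] [Fintype F], (kacCount Q F α : ℚ) = p.eval (Fintype.card F : ℚ)

end Reps

section Matrices

end Matrices

end Pool.Agent.H27.KAC
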