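import Pool.Agent.H16.TKA.M04

/-!
KAC module KQFil: the filtration `Fil a x r` (all monomials `Y^β` occurring satisfy `(Cβ)_x ≤ r`).
`β ↦ (Cβ)_x` is additive, so everything is elementary; for the inverse of a unit `u ∈ Fil 0`
with constant coefficient 1 use strong induction on the total degree of `β` in the recursion
`coeff β (u⁻¹) = - ∑_{(β1,β2), β2 ≠ β} coeff β1 u * coeff β2 u⁻¹`.
-/

namespace Pool.Agent.H27.KAC

open scoped BigOperators
open MvPowerSeries

variable {I : Type} [Fintype I] [DecidableEq I]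

theorem Fil.mono {a : I → I → ℕ} {x : I} {r s : ℤ} {F : MvPowerSeries I ℚ} (h : Fil a x r F)
    (hrs : r ≤ s) : Fil a x s F := fun β hβ => (h β hβ).trans hrs

theorem Fil_zero (a : I → I → ℕ) (x : I) (r : ℤ) : Fil a x r 0 := by
  intro β hβ
  exact absurd (coeff β).map_zero hβ

theorem Fil_C (a : I → I → ℕ) (x : I) (q : ℚ) : Fil a x 0 (C q : MvPowerSeries I ℚ) := by
  classical
  intro β hβ
  rw [coeff_C] at hβ
  split_ifs at hβ with h
  · rw [h, cw_zero]
  · exact absurd rfl hβ

theorem Fil_one (a : I → I → ℕ) (x : I) : Fil a x 0 (1 : MvPowerSeries I ℚ) := by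
  have h := Fil_C a x 1
  rwa [map_one] at h

theorem Fil_natCast (a : I → I → ℕ) (x : I) (n : ℕ) : Fil a x 0 (n : MvPowerSeries I ℚ) := by
  have h := Fil_C a x n
  rwa [map_natCast] at h

theorem Fil.add {a : I → I → ℕ} {x : I} {r : ℤ} {F G : MvPowerSeries I ℚ} (h : Fil a x r F)
    (h' : Fil a x r G) : Fil a x r (F + G) := by
  intro β hβ
  rw [map_add] at hβ
  by_cases hF : coeff β F = 0
  · refine h' β fun hG => hβ ?_
    rw [hF, hG, add_zero]
  · exact h β hF

theorem Fil.neg {a : I → I → ℕ} {x : I} {r : ℤ} {F : MvPowerSeries I ℚ} (h : Fil a x r F) :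
    Fil a x r (-F) := by
  intro β hβ
  rw [map_neg] at hβ
  exact h β fun h0 => hβ (by rw [h0, neg_zero])

theorem Fil.sub {a : I → I → ℕ} {x : I} {r : ℤ} {F G : MvPowerSeries I ℚ} (h : Fil a x r F)
    (h' : Fil a x r G) : Fil a x r (F - G) := by
  rw [sub_eq_add_neg]
  exact h.add h'.neg

theorem Fil.mul {a : I → I → ℕ} {x : I} {r s : ℤ} {F G : MvPowerSeries I ℚ} (h : Fil a x r F)
    (h' : Fil a x s G) : Fil a x (r + s) (F * G) := by
  classical
  intro β hβ
  rw [coeff_mul] at hβ
  obtain ⟨p, hp, hne⟩ := Finset.exists_ne_zero_of_sum_ne_zero hβ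
  have h1 := h p.1 (left_ne_zero_of_mul hne)
  have h2 := h' p.2 (right_ne_zero_of_mul hne)
  rw [← Finset.HasAntidiagonal.mem_antidiagonal.1 hp, cw_add]
  exact add_le_add h1 h2

theorem Fil.pow {a : I → I → ℕ} {x : I} {r : ℤ} {F : MvPowerSeries I ℚ} (h : Fil a x r F) (n : ℕ) :
    Fil a x (n * r) (F ^ n) := by
  induction n with
  | zero =>
    rw [pow_zero, Nat.cast_zero, zero_mul]
    exact Fil_one a x
  | succ n ih =>
    rw [pow_succ]
    refine (ih.mul h).mono (le_of_eq ?_)
    push_cast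
    ring

theorem Fil.prod {ι : Type} {a : I → I → ℕ} {x : I} {r : ι → ℤ} {s : Finset ι}
    {F : ι → MvPowerSeries I ℚ} (h : ∀ j ∈ s, Fil a x (r j) (F j)) :
    Fil a x (∑ j ∈ s, r j) (∏ j ∈ s, F j) := by
  classical
  induction s using Finset.induction_on with
  | empty =>
    rw [Finset.sum_empty, Finset.prod_empty]
    exact Fil_one a x
  | insert j s hj ih =>
    rw [Finset.sum_insert hj, Finset.prod_insert hj]
    exact (h j (Finset.mem_insert_self j s)).mul
      (ih fun i hi => h i (Finset.mem_insert_of_mem hi))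

theorem Fil_X_pow (a : I → I → ℕ) (x i : I) (n : ℕ) :
    Fil a x (n * cart a x i) ((X i : MvPowerSeries I ℚ) ^ n) := by
  classical
  intro β hβ
  rw [coeff_X_pow] at hβ
  split_ifs at hβ with h
  · rw [h]
    refine le_of_eq ?_
    unfold cw
    rw [Finset.sum_eq_single i]
    · rw [Finsupp.single_eq_same, mul_comm]
    · intro j _ hj
      rw [Finsupp.single_eq_of_ne hj]
      simp
    · intro hi
      exact absurd (Finset.mem_univ i) hi
  · exact absurd rfl hβ

theorem Fil_inv {a : I → I → ℕ} {x : I} {u : (MvPowerSeries I ℚ)ˣ}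
    (h : Fil a x 0 (u : MvPowerSeries I ℚ)) (h1 : constantCoeff (u : MvPowerSeries I ℚ) = 1) :
    Fil a x 0 ((u⁻¹ : (MvPowerSeries I ℚ)ˣ) : MvPowerSeries I ℚ) := by
  classical
  have hmul : (u : MvPowerSeries I ℚ) * ((u⁻¹ : (MvPowerSeries I ℚ)ˣ) : MvPowerSeries I ℚ) = 1 :=
    u.mul_inv
  have key : ∀ n : ℕ, ∀ β : I →₀ ℕ, (∑ j, β j) = n →
      coeff β ((u⁻¹ : (MvPowerSeries I ℚ)ˣ) : MvPowerSeries I ℚ) ≠ 0 → cw a β x ≤ 0 := by
    intro n
    induction n using Nat.strong_induction_on with
    | _ n ih =>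
      intro β hβn hβ
      by_cases hβ0 : β = 0
      · rw [hβ0, cw_zero]
      · have h2 : coeff β ((u : MvPowerSeries I ℚ) *
            ((u⁻¹ : (MvPowerSeries I ℚ)ˣ) : MvPowerSeries I ℚ)) = 0 := by
          rw [hmul, coeff_one, if_neg hβ0]
        rw [coeff_mul] at h2
        have hmem : ((0 : I →₀ ℕ), β) ∈ Finset.HasAntidiagonal.antidiagonal β := by
          rw [Finset.HasAntidiagonal.mem_antidiagonal]
          exact zero_add β
        rw [← Finset.add_sum_erase _ _ hmem] at h2
        have h3 : coeff (0 : I →₀ ℕ) (u : MvPowerSeries I ℚ) = 1 := by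
          rw [← h1]
          rfl
        simp only at h2
        rw [h3, one_mul] at h2
        have h4 : (∑ p ∈ (Finset.HasAntidiagonal.antidiagonal β).erase ((0 : I →₀ ℕ), β),
            coeff p.1 (u : MvPowerSeries I ℚ) *
              coeff p.2 ((u⁻¹ : (MvPowerSeries I ℚ)ˣ) : MvPowerSeries I ℚ)) ≠ 0 := by
          intro h5
          rw [h5, add_zero] at h2
          exact hβ h2
        obtain ⟨p, hp, hne⟩ := Finset.exists_ne_zero_of_sum_ne_zero h4
        rw [Finset.mem_erase, Finset.HasAntidiagonal.mem_antidiagonal] at hp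
        have h6 := h p.1 (left_ne_zero_of_mul hne)
        have h7 : (∑ j, p.2 j) < n := by
          rw [← hβn, ← hp.2]
          have h8 : ∑ j, (p.1 + p.2) j = ∑ j, p.1 j + ∑ j, p.2 j := by
            rw [← Finset.sum_add_distrib]
            rfl
          rw [h8]
          have h9 : 0 < ∑ j, p.1 j := by
            rw [Nat.pos_iff_ne_zero]
            intro h10
            apply hp.1
            have h11 : p.1 = 0 := by
              ext j
              exact Finset.sum_eq_zero_iff.1 h10 j (Finset.mem_univ j)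
            have h12 : p.2 = β := by
              rw [← hp.2, h11, zero_add]
            exact Prod.ext h11 h12
          omega
        have h8 := ih _ h7 p.2 rfl (right_ne_zero_of_mul hne)
        rw [← hp.2, cw_add]
        omega
  exact fun β hβ => key _ β rfl hβ

end Pool.Agent.H27.KAC
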